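import Pool.Agent.H93.RG.Mat

/-!
# FG for blocks of size `r`: values of the variables at the start, transport, clauses
(port of H3/MPG/Reach, Tow)
-/

set_option autoImplicit false
set_option linter.unusedSectionVars false

namespace Pool.Agent.H13.RG

open Finset
open Pool.Agent.H3.Frg hiding ind
open Pool.Agent.H3.Ac (ldep SubCl)
open Pool.Agent.H67.FG (ind Alg Fo tr orAll orF IsRef Few)
open Pool.Agent.H93.RG

section Edge

variable {V : Type} [Fintype V] [DecidableEq V] {r : ℕ}

open scoped Classical in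
/-- the value of the variable of the block `e` at a partial partition -/
noncomputable def evl (e : Finset V) (M : Finset (Finset V)) : Option Bool :=
  if e ∈ M then some true else if ∃ v ∈ e, v ∈ cov M then some false else none

theorem evl_true {e : Finset V} {M : Finset (Finset V)} : evl e M = some true ↔ e ∈ M := by
  unfold evl
  split_ifs with h1 h2 <;> simp [h1]

theorem evl_false {e : Finset V} {M : Finset (Finset V)} :
    evl e M = some false ↔ e ∉ M ∧ ∃ v ∈ e, v ∈ cov M := by
  unfold evl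
  by_cases h1 : e ∈ M
  · rw [if_pos h1]
    simp [h1]
  · rw [if_neg h1]
    by_cases h2 : ∃ v ∈ e, v ∈ cov M
    · rw [if_pos h2]
      exact ⟨fun _ => ⟨h1, h2⟩, fun _ => rfl⟩
    · rw [if_neg h2]
      exact ⟨fun h => absurd h (by simp), fun h => absurd h.2 h2⟩

theorem evl_Val (hr : 1 ≤ r) {e : Finset V} (he : e.card = r) (w R : ℕ) (hw : 1 ≤ w) :
    Val r w R (evl e) := by
  constructor
  · intro M M' hM' h b hb
    cases b with
    | true => exact evl_true.2 (h (evl_true.1 hb))
    | false =>
      obtain ⟨h1, v, hv, hc⟩ := evl_false.1 hb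
      refine evl_false.2 ⟨fun h2 => ?_, v, hv, cov_mono h hc⟩
      obtain ⟨f, hf, hvf⟩ := mem_cov.1 hc
      rw [hM'.2 e h2 f (h hf) v hv hvf] at h1
      exact h1 hf
  · intro M hM b hb
    cases b with
    | true =>
      refine ⟨{e}, by simpa using evl_true.1 hb, by simpa using hw, evl_true.2 (by simp)⟩
    | false =>
      obtain ⟨h1, v, hv, hc⟩ := evl_false.1 hb
      obtain ⟨f, hf, hvf⟩ := mem_cov.1 hc
      refine ⟨{f}, by simpa using hf, by simpa using hw, evl_false.2 ⟨?_, v, hv, ?_⟩⟩
      · rw [Finset.mem_singleton]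
        rintro rfl
        exact h1 hf
      · exact mem_cov.2 ⟨f, by simp, hvf⟩
  · intro M hM _
    by_cases h : ∃ v ∈ e, v ∈ cov M
    · refine ⟨M, hM, Finset.Subset.refl _, Nat.le_add_right _ _, ?_⟩
      by_cases h1 : e ∈ M
      · rw [evl_true.2 h1]; simp
      · rw [evl_false.2 ⟨h1, h⟩]; simp
    · have hdis : Disjoint e (cov M) :=
        Finset.disjoint_left.2 fun v hv hc => h ⟨v, hv, hc⟩
      refine ⟨insert e M, (isM_insert hr hM he hdis).1, Finset.subset_insert _ _,
        (Finset.card_insert_le _ _).trans (by omega), ?_⟩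
      rw [evl_true.2 (Finset.mem_insert_self _ _)]
      simp

/-- constants -/
theorem const_Val (b : Bool) (w R : ℕ) : Val r w R (fun _ : Finset (Finset V) => some b) :=
  ⟨fun _ _ _ _ _ h => h, fun _ _ _ h => ⟨∅, Finset.empty_subset _, by simp, h⟩,
    fun M hM _ => ⟨M, hM, Finset.Subset.refl _, Nat.le_add_right _ _, by simp⟩⟩

end Edge

/-- the variables describe a partial partition of the points of `Fin N`, the constants are right -/
structure VarOK {N : ℕ} {V : Type} [Fintype V] (r : ℕ)
    (val : Fm (Finset (Fin N) ⊕ Bool) → Finset (Finset V) → Option Bool) : Prop where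
  /-- constants -/
  const : ∀ b M, val (Fm.var (Sum.inr b)) M = some b
  /-- no point is in two blocks -/
  func : ∀ (a : Fin N) (B C : Finset (Fin N)), a ∈ B → a ∈ C → B ≠ C → ∀ M, IsM r M →
    val (Fm.var (Sum.inl B)) M = some true → val (Fm.var (Sum.inl C)) M ≠ some true
  /-- every point gets a block by one more block -/
  ext : ∀ a M, IsM r M → r * M.card + r ≤ Fintype.card V → ∃ M', IsM r M' ∧ M ⊆ M' ∧
    M'.card ≤ M.card + 1 ∧ ∃ B : Finset (Fin N), B.card = r ∧ a ∈ B ∧
      val (Fm.var (Sum.inl B)) M' = some true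

/-! ### the values of the variables at the start -/

section Start

variable {N : ℕ} {r : ℕ}

open scoped Classical in
/-- the values at the start -/
noncomputable def val0 (r N : ℕ) : Fm (Finset (Fin N) ⊕ Bool) → Finset (Finset (Fin N)) → Option Bool
  | Fm.var (Sum.inl e), M => if e.card = r then evl e M else some false
  | Fm.var (Sum.inr b), _ => some b
  | Fm.neg _, _ => none
  | Fm.imp _ _, _ => none

theorem val0_true {B : Finset (Fin N)} {M : Finset (Finset (Fin N))} (hM : IsM r M) :
    val0 r N (Fm.var (Sum.inl B)) M = some true ↔ B ∈ M := by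
  classical
  simp only [val0]
  by_cases h : B.card = r
  · rw [if_pos h]
    exact evl_true
  · rw [if_neg h]
    exact ⟨fun h1 => absurd h1 (by simp), fun h1 => absurd (hM.1 _ h1) h⟩

theorem val0_OK (hr : 1 ≤ r) (N : ℕ) : VarOK r (val0 r N) := by
  classical
  constructor
  · intro b M
    rfl
  · intro a B C hB hC hBC M hM h1 h2
    rw [val0_true hM] at h1 h2
    exact hBC (hM.2 _ h1 _ h2 a hB hC)
  · intro a M hM hroom
    obtain ⟨M', h1, h2, h3, h4, _⟩ := cover hr {a} hM (by rw [Finset.card_singleton, mul_one]; exact hroom)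
    rw [Finset.card_singleton] at h4
    obtain ⟨e, he, hae⟩ := mem_cov.1 (h3 (Finset.mem_singleton_self a))
    exact ⟨M', h1, h2, h4, e, h1.1 e he, hae, (val0_true h1).2 he⟩

theorem ldep_zero_pos (A : Fm (Finset (Fin N) ⊕ Bool)) (h : ldep 0 A ≤ 0) :
    ∃ x, A = Fm.var x := by
  cases A with
  | var x => exact ⟨x, rfl⟩
  | neg A =>
    simp only [ldep] at h
    rw [if_neg (by omega)] at h
    omega
  | imp A B =>
    simp only [ldep] at h
    rw [if_neg (by omega)] at h
    omega

theorem val0_Val (hr : 1 ≤ r) (w R : ℕ) (hw : 1 ≤ w) (A : Fm (Finset (Fin N) ⊕ Bool)) (h : ldep 0 A ≤ 0) :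
    Val r w R (val0 r N A) := by
  classical
  obtain ⟨x, rfl⟩ := ldep_zero_pos A h
  rcases x with e | b
  · by_cases he : e.card = r
    · have h1 : val0 r N (Fm.var (Sum.inl e)) = evl e := by
        funext M
        simp only [val0, if_pos he]
      rw [h1]
      exact evl_Val hr he w R hw
    · have h1 : val0 r N (Fm.var (Sum.inl e)) = fun _ => some false := by
        funext M
        simp only [val0, if_neg he]
      rw [h1]
      exact const_Val false w R
  · exact const_Val b w R

/-- variables only: nothing to check for the connectives -/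
theorem val0_Coh (r N : ℕ) (S : List (Fm (Finset (Fin N) ⊕ Bool))) :
    Coh r (val0 r N) {A | A ∈ S ∧ ldep 0 A ≤ 0} :=
  ⟨fun A hA => by
    obtain ⟨x, hx⟩ := ldep_zero_pos _ hA.2
    exact absurd hx (by simp), fun A B hA => by
    obtain ⟨x, hx⟩ := ldep_zero_pos _ hA.2
    exact absurd hx (by simp)⟩

end Start

/-! ### transport to a given set -/

section Transport

variable {A B : Type} {r : ℕ}

/-- transport of a set of blocks -/
def psh (φ : A ≃ B) (M : Finset (Finset A)) : Finset (Finset B) :=
  φ.finsetCongr.finsetCongr M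

theorem mem_psh {φ : A ≃ B} {M : Finset (Finset A)} {e : Finset B} :
    e ∈ psh φ M ↔ ∃ f ∈ M, f.map φ.toEmbedding = e := by
  unfold psh
  simp only [Equiv.finsetCongr_apply, Finset.mem_map]
  rfl

theorem psh_symm (φ : A ≃ B) (M : Finset (Finset A)) : psh φ.symm (psh φ M) = M := by
  unfold psh
  rw [← Equiv.finsetCongr_symm, ← Equiv.finsetCongr_symm, Equiv.symm_apply_apply]

theorem psh_symm' (φ : A ≃ B) (M : Finset (Finset B)) : psh φ (psh φ.symm M) = M := by
  have h := psh_symm φ.symm M
  rwa [Equiv.symm_symm] at h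

theorem psh_mono {φ : A ≃ B} {M M' : Finset (Finset A)} (h : M ⊆ M') : psh φ M ⊆ psh φ M' :=
  Finset.map_subset_map.2 h

theorem card_psh (φ : A ≃ B) (M : Finset (Finset A)) : (psh φ M).card = M.card :=
  Finset.card_map _

theorem isM_psh {φ : A ≃ B} {M : Finset (Finset A)} (hM : IsM r M) : IsM r (psh φ M) := by
  constructor
  · intro e he
    obtain ⟨f, hf, rfl⟩ := mem_psh.1 he
    rw [Finset.card_map]
    exact hM.1 f hf
  · intro e he f hf v hve hvf
    obtain ⟨e', he', rfl⟩ := mem_psh.1 he
    obtain ⟨f', hf', rfl⟩ := mem_psh.1 hf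
    obtain ⟨x, hx, rfl⟩ := Finset.mem_map.1 hve
    obtain ⟨y, hy, hxy⟩ := Finset.mem_map.1 hvf
    rw [φ.toEmbedding.injective hxy] at hy
    rw [hM.2 e' he' f' hf' x hx hy]

variable [Fintype A] [Fintype B]

theorem Val_psh {φ : A ≃ B} {w R : ℕ} {f : Finset (Finset B) → Option Bool} (h : Val r w R f) :
    Val r w R (fun M => f (psh φ M)) := by
  have hc : Fintype.card A = Fintype.card B := Fintype.card_congr φ
  constructor
  · intro M M' hM' hs b hb
    exact h.mono _ _ (isM_psh hM') (psh_mono hs) b hb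
  · intro M hM b hb
    obtain ⟨t, h1, h2, h3⟩ := h.wit _ (isM_psh hM) b hb
    refine ⟨RG.psh φ.symm t, ?_, by rw [card_psh]; exact h2, by rw [psh_symm']; exact h3⟩
    have h4 := psh_mono (φ := φ.symm) h1
    rwa [psh_symm] at h4
  · intro M hM hroom
    obtain ⟨K, h1, h2, h3, h4⟩ := h.tot _ (isM_psh (φ := φ) hM) (by rw [card_psh, ← hc]; exact hroom)
    refine ⟨RG.psh φ.symm K, isM_psh h1, ?_, ?_, by rw [psh_symm']; exact h4⟩
    · have h5 := psh_mono (φ := φ.symm) h2
      rwa [psh_symm] at h5
    · rw [card_psh]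
      rw [card_psh] at h3
      exact h3

theorem Coh_psh {W : Type} {φ : A ≃ B} {val : Fm W → Finset (Finset B) → Option Bool}
    {S : Set (Fm W)} (h : Coh r val S) : Coh r (fun F (M : Finset (Finset A)) => val F (psh φ M)) S :=
  ⟨fun F hF M hM a b ha hb => h.neg F hF _ (isM_psh hM) a b ha hb,
    fun F G hF M hM a b c ha hb hc => h.imp F G hF _ (isM_psh hM) a b c ha hb hc⟩

theorem VarOK_psh {N : ℕ} {φ : A ≃ B}
    {val : Fm (Finset (Fin N) ⊕ Bool) → Finset (Finset B) → Option Bool} (h : VarOK r val) :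
    VarOK r (fun F (M : Finset (Finset A)) => val F (psh φ M)) := by
  have hc : Fintype.card A = Fintype.card B := Fintype.card_congr φ
  constructor
  · intro b M
    exact h.const b _
  · intro a B C hB hC hBC M hM h1
    exact h.func a B C hB hC hBC _ (isM_psh hM) h1
  · intro a M hM hroom
    obtain ⟨K, h1, h2, h3, b, h4, h5, h5'⟩ :=
      h.ext a _ (isM_psh (φ := φ) hM) (by rw [card_psh, ← hc]; exact hroom)
    refine ⟨RG.psh φ.symm K, isM_psh h1, ?_, ?_, b, h4, h5, ?_⟩
    · have h6 := psh_mono (φ := φ.symm) h2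
      rwa [psh_symm] at h6
    · rw [card_psh]
      rw [card_psh] at h3
      exact h3
    · show val _ (RG.psh φ (RG.psh φ.symm K)) = some true
      rw [psh_symm']
      exact h5'

end Transport

/-! ### clauses -/

section Clause

variable {W V : Type} [Fintype V] [DecidableEq V] {r : ℕ}

theorem orF_mem {S : Set (Fm W)} (hS : SubCl S) (l : List (Fm W)) (B : Fm W) (h : orF l B ∈ S) :
    ∀ x ∈ B :: l, x ∈ S := by
  induction l with
  | nil =>
    intro x hx
    rw [List.mem_singleton] at hx
    rw [hx]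
    exact h
  | cons C l ih =>
    have h1 := hS.2 (Fm.neg C) (orF l B) h
    intro x hx
    rcases List.mem_cons.1 hx with rfl | hx
    · exact ih h1.2 x List.mem_cons_self
    · rcases List.mem_cons.1 hx with rfl | hx
      · exact hS.1 x h1.1
      · exact ih h1.2 x (List.mem_cons_of_mem _ hx)

theorem orF_bool {a b : Bool} (h : false = (!a || b)) : a = true ∧ b = false := by
  revert h
  cases a <;> cases b <;> decide

theorem orF_bool2 {c : Bool} (h : true = !c) : c = false := by
  revert h
  cases c <;> decide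

/-- a disjunction with a true member is not false at a small partial partition -/
theorem orF_true {S : Set (Fm W)} (hS : SubCl S) {w : ℕ}
    {val : Fm W → Finset (Finset V) → Option Bool} (hval : ∀ A ∈ S, Val r w (2 * r * r * w) (val A))
    (hcoh : Coh r val S) (hV : r * (4 * w) + 2 * r * r * w ≤ Fintype.card V) {x : Fm W}
    {t0 : Finset (Finset V)}
    (ht0 : t0.card ≤ w) (hx : val x t0 = some true) (B : Fm W) :
    ∀ (l : List (Fm W)), orF l B ∈ S → x ∈ B :: l → ∀ M, IsM r M → M.card ≤ 2 * w → t0 ⊆ M →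
      val (orF l B) M ≠ some false := by
  have room : ∀ n : ℕ, n ≤ 4 * w → r * n + 2 * r * r * w ≤ Fintype.card V := fun n hn =>
    (Nat.add_le_add_right (Nat.mul_le_mul_left r hn) _).trans hV
  intro l
  induction l with
  | nil =>
    intro hB hxB M hM _ ht hf
    rw [List.mem_singleton] at hxB
    rw [hxB] at hx
    have h1 := (hval B hB).mono _ _ hM ht true hx
    rw [show orF [] B = B from rfl, h1] at hf
    exact absurd hf (by simp)
  | cons C l ih =>
    intro hC hxC M hM hMw ht hf
    obtain ⟨h1, h2⟩ := hS.2 (Fm.neg C) (orF l B) hC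
    have h3 := hS.1 C h1
    obtain ⟨M1, a1, a2, a3, a4⟩ := (hval _ h1).tot M hM (room _ (by omega))
    obtain ⟨M2, b1, b2, b3, b4⟩ := (hval _ h2).tot M1 a1 (room _ (by omega))
    obtain ⟨M3, c1, c2, c3, c4⟩ := (hval _ h3).tot M2 b1 (room _ (by omega))
    obtain ⟨va, hva⟩ := Option.ne_none_iff_exists'.1 a4
    obtain ⟨vb, hvb⟩ := Option.ne_none_iff_exists'.1 b4
    obtain ⟨vc, hvc⟩ := Option.ne_none_iff_exists'.1 c4
    have d1 := (hval _ h1).mono _ _ c1 (b2.trans c2) va hva
    have d2 := (hval _ h2).mono _ _ c1 c2 vb hvb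
    have d3 : val (orF (C :: l) B) M3 = some false :=
      (hval _ hC).mono _ _ c1 ((a2.trans b2).trans c2) false hf
    have e1 : false = (!va || vb) := hcoh.imp (Fm.neg C) (orF l B) hC M3 c1 va vb false d1 d2 d3
    have e2 : va = !vc := hcoh.neg C h1 M3 c1 vc va hvc d1
    obtain ⟨e5, e3⟩ := orF_bool e1
    have e4 : vc = false := by
      rw [e5] at e2
      exact orF_bool2 e2
    have hMM : M ⊆ M3 := (a2.trans b2).trans c2
    have hxm : x ∈ C :: (B :: l) := by
      rcases List.mem_cons.1 hxC with h | h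
      · rw [h]; simp
      · rcases List.mem_cons.1 h with h | h
        · rw [h]; simp
        · exact List.mem_cons_of_mem _ (List.mem_cons_of_mem _ h)
    rcases List.mem_cons.1 hxm with h | h
    · rw [h] at hx
      have h5 := (hval C h3).mono _ _ c1 (ht.trans hMM) true hx
      rw [h5, e4] at hvc
      exact absurd hvc (by simp)
    · rw [e3] at d2
      obtain ⟨t, f1, f2, f3⟩ := (hval _ h2).wit M3 c1 false d2
      have g1 : t ∪ t0 ⊆ M3 := Finset.union_subset f1 (ht.trans hMM)
      refine ih h2 h (t ∪ t0) (isM_sub c1 g1) ((Finset.card_union_le _ _).trans (by omega))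
        Finset.subset_union_right ?_
      exact (hval _ h2).mono _ _ (isM_sub c1 g1) Finset.subset_union_left false f3

/-- clauses `a is in a block` are never false -/
theorem VarOK.clause {N : ℕ} {S : Set (Fm (Finset (Fin N) ⊕ Bool))} (hS : SubCl S) {w : ℕ}
    (hw : 1 ≤ w) {val : Fm (Finset (Fin N) ⊕ Bool) → Finset (Finset V) → Option Bool}
    (hval : ∀ A ∈ S, Val r w (2 * r * r * w) (val A)) (hcoh : Coh r val S) (hok : VarOK r val)
    (hV : r * (4 * w) + 2 * r * r * w ≤ Fintype.card V) (a : Fin N)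
    (l : List (Fm (Finset (Fin N) ⊕ Bool)))
    (B : Fm (Finset (Fin N) ⊕ Bool)) (hC : orF l B ∈ S)
    (hall : ∀ e : Finset (Fin N), e.card = r → a ∈ e → Fm.var (Sum.inl e) ∈ B :: l)
    (M : Finset (Finset V)) (hM : IsM r M) :
    val (orF l B) M ≠ some false := by
  intro hf
  obtain ⟨t, h1, h2, h3⟩ := (hval _ hC).wit M hM false hf
  have hroom : r * t.card + r ≤ Fintype.card V := by
    calc r * t.card + r = r * (t.card + 1) := by ring
      _ ≤ r * (4 * w) := Nat.mul_le_mul_left _ (by omega)
      _ ≤ _ := (Nat.le_add_right _ _).trans hV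
  obtain ⟨M', k1, k2, k3, b, k4, k5, k6⟩ := hok.ext a t (isM_sub hM h1) hroom
  have hxS := orF_mem hS l B hC _ (hall b k4 k5)
  obtain ⟨t0, m1, m2, m3⟩ := (hval _ hxS).wit M' k1 true k6
  have g1 : t ∪ t0 ⊆ M' := Finset.union_subset k2 m1
  exact orF_true hS hval hcoh hV m2 m3 B l hC (hall b k4 k5) (t ∪ t0) (isM_sub k1 g1)
    ((Finset.card_union_le _ _).trans (by omega)) Finset.subset_union_right
    ((hval _ hC).mono _ _ (isM_sub k1 g1) Finset.subset_union_left false h3)

/-- the room from the hypothesis of `tower` -/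
theorem room_of {w n : ℕ} (h : 100 * r ^ 2 * (w + 1) ^ 2 ≤ n) : r * (4 * w) + 2 * r * r * w ≤ n := by
  refine le_trans ?_ h
  have h1 : w ≤ (w + 1) ^ 2 := by nlinarith
  have h2 : r ≤ r ^ 2 := Nat.le_self_pow (by norm_num) r
  calc r * (4 * w) + 2 * r * r * w = 4 * (r * w) + 2 * (r ^ 2 * w) := by ring
    _ ≤ 4 * (r ^ 2 * (w + 1) ^ 2) + 2 * (r ^ 2 * (w + 1) ^ 2) :=
      Nat.add_le_add (Nat.mul_le_mul_left _ (Nat.mul_le_mul h2 h1))
        (Nat.mul_le_mul_left _ (Nat.mul_le_mul_left _ h1))
    _ = 6 * (r ^ 2 * (w + 1) ^ 2) := by ring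
    _ ≤ 100 * (r ^ 2 * (w + 1) ^ 2) := Nat.mul_le_mul_right _ (by norm_num)
    _ = _ := by ring

end Clause

end Pool.Agent.H13.RG
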